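import Pool.Agent.U407.PF5
import Pool.Agent.U407.PF6

/-!
# Average order of vanishing for the Jacobians of Artin–Schreier curves `y^p - y = f(x, t)`, and
# positive proportion of order zero over all elementary abelian `p`-extensions of the base

Let `k` be the field with `q = p^s` elements, `a` and `b` coprime and `g a`, `g b` divisors of
`p - 1` (for `a = b = 1`: `f` is of total degree `g`, a divisor of `p - 1`). We consider the family
of all the curves `y^p - y = f(x, t)`, where

  `f = u ∑_{i ≤ g} Φ_i x^{a i} t^{b (g - i)} + ∑_{(m, n) ∈ D} φ_{m, n} x^m t^n`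

with arbitrary `u ≠ 0`, `Φ = X^g + Φ_{g-1} X^{g-1} + ⋯ + Φ_0` and `φ_{m, n}` in `k`; here `D` is a
fixed finite set of exponents below the edge, `b m + a n < g a b`. A member of the family is
considered over the function field `F` of any curve `z_l^p - z_l = h_l(t)`, `l < r`, with
`deg h_l < b g`; let `J` be its Jacobian over `F`. The function

  `L(T) = exp (∑_{n ≥ 1} (q^n S_n - N_n) T^n / n)`,

`N_n` and `S_n` being the numbers of the points over the field with `q^n` elements of the affine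
surface and of the affine curve given by these equations, is the `L`-function of `J` over `F`, up to
the Euler factors at infinity; the central point is `T = 1 / q`. A member is good if `Φ` is
squarefree and ordinary (its Hasse–Witt determinants do not vanish). The hand-ins `LeadingForm` and
`ArtinSchreierTowers` of this folder bound the order by `p^r (p - 1) (e - 1)` for a good member, `e`
being the number of irreducible factors of `Φ`. Here we treat the whole family. There is an explicit
constant `B`, depending only on `p, a, b, g`, such that for all `q`: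

* the proportion of the good members is at least `1 - (B + 2) / q`;
* the average order over the good members, where the `h_l` may vary with the member, is at most
  `p^r (p - 1) (H / (1 - (B + 2) / q) - 1)`, with the harmonic number `H = 1 + 1/2 + ⋯ + 1/g`: the
  average order grows at most like the logarithm of the genus;
* for a proportion of at least `1 / g - (B + 1) / q` of all the members `L` does not vanish at
  `T = 1 / q` over any of the fields `F`, that is for all `r` and all `h_l`; so the order and the rank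
  of `J(F)` are zero; and the `p`-adic valuation of `L(1/q)` is exactly `-s p^r (p - 1) hodge`.

The proof combines the main theorem on towers of the starting library (`Pool.Agent.N867.AS.X4`) with
the lemma of Schwartz and Zippel for the Hasse–Witt determinants and with bounds for the numbers of
irreducible polynomials.
-/

set_option autoImplicit false

namespace Pool.Agent.Results.MP_1d384c_nt.LeadingFormStatistics

open Polynomial

/-- The pairs `u = (u_1, u_2)` of positive integers with `b u_1 + a u_2 = w`. -/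
abbrev Lattice (a b w : ℕ) : Type :=
  {u : Fin (w + 1) × Fin (w + 1) //
    0 < (u.1 : ℕ) ∧ 0 < (u.2 : ℕ) ∧ b * (u.1 : ℕ) + a * (u.2 : ℕ) = w}

/-- The matrix with entries the coefficients of `X^{(p v_1 - u_1)/a}` in `Φ^n`, for `u` and `v` in
`Lattice a b w`. -/
noncomputable def hasseWitt {k : Type} [Field k] (p a b w n : ℕ) (Φ : k[X]) :
    Matrix (Lattice a b w) (Lattice a b w) k :=
  Matrix.of fun u v => (Φ ^ n).coeff ((p * (v.1.1 : ℕ) - (u.1.1 : ℕ)) / a)

/-- For every `w` with `0 < w < g a b` the matrix `hasseWitt` of `Φ^{(p-1)w/(gab)}` is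
invertible. -/
def Ordinary {k : Type} [Field k] (p a b g : ℕ) (Φ : k[X]) : Prop :=
  ∀ w, 0 < w → w < g * (a * b) → (hasseWitt p a b w ((p - 1) * w / (g * (a * b))) Φ).det ≠ 0

/-- The constant `B`: the sum of `#(Lattice a b w) (p - 1) w / (g a b)` over `w < g a b`, that is of
the degrees of the Hasse–Witt determinants in the coefficients of `Φ`. -/
def hasseDegree (p a b g : ℕ) : ℕ :=
  ∑ w ∈ Finset.range (g * (a * b)),
    Fintype.card (Lattice a b w) * ((p - 1) * w / (g * (a * b)))

/-- The sum of `1 - w / (g a b)` over all pairs `(u_1, u_2)` of positive integers with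
`w = b u_1 + a u_2 < g a b`. -/
noncomputable def hodge (a b g : ℕ) : ℚ :=
  ∑ w ∈ Finset.range (g * (a * b)),
    (Fintype.card (Lattice a b w) : ℚ) * (1 - (w : ℚ) / ((g * (a * b) : ℕ) : ℚ))

/-- The members of the family: the triples of `u ≠ 0`, the coefficients `Φ_0, …, Φ_{g-1}` and the
coefficients `φ` at the exponents in `D`. -/
abbrev Member (k : Type) [Field k] (g : ℕ) (D : Finset (ℕ × ℕ)) : Type :=
  kˣ × (Fin g → k) × (D → k)

/-- `Φ = X^g + ∑_{i < g} Φ_i X^i`. -/
noncomputable def form {k : Type} [Field k] {g : ℕ} {D : Finset (ℕ × ℕ)} (m : Member k g D) :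
    k[X] :=
  X ^ g + ∑ i : Fin g, C (m.2.1 i) * X ^ (i : ℕ)

/-- `f = u ∑_{i ≤ g} Φ_i x^{a i} t^{b (g - i)} + ∑_{(m, n) ∈ D} φ_{m, n} x^m t^n` (outer variable
`x`, inner variable `t`). -/
noncomputable def poly {k : Type} [Field k] (a b : ℕ) {g : ℕ} {D : Finset (ℕ × ℕ)}
    (m : Member k g D) : k[X][X] :=
  ∑ i ∈ Finset.range (g + 1), monomial (a * i) (monomial (b * (g - i)) (m.1 * (form m).coeff i)) +
    ∑ d : D, monomial d.1.1 (monomial d.1.2 (m.2.2 d))

/-- The number of irreducible factors. -/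
noncomputable def numFactors {k : Type} [Field k] (P : k[X]) : ℕ :=
  (UniqueFactorizationMonoid.factors P).card

/-- `Φ` is squarefree and ordinary. -/
def IsGood {k : Type} [Field k] (p a b : ℕ) {g : ℕ} {D : Finset (ℕ × ℕ)} (m : Member k g D) :
    Prop :=
  Squarefree (form m) ∧ Ordinary p a b g (form m)

/-- The proportion of the members of the family with a property. -/
noncomputable def proportion {k : Type} [Field k] {g : ℕ} {D : Finset (ℕ × ℕ)}
    (Q : Member k g D → Prop) : ℚ :=
  (Nat.card {m // Q m} : ℚ) / Nat.card (Member k g D)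

/-- The average of a function over the members of the family with a property. -/
noncomputable def average {k : Type} [Field k] {g : ℕ} {D : Finset (ℕ × ℕ)}
    (Q : Member k g D → Prop) (F : Member k g D → ℚ) : ℚ :=
  (∑ᶠ m : {m // Q m}, F m.1) / Nat.card {m // Q m}

/-- The value `h(t)` at an element `t` of an algebraic closure of `k`. -/
noncomputable def baseValue {k : Type} [Field k] (h : k[X]) (t : AlgebraicClosure k) :
    AlgebraicClosure k :=
  h.eval₂ (algebraMap k (AlgebraicClosure k)) t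

/-- The value `f(x, t)` at a point with coordinates in an algebraic closure of `k`. -/
noncomputable def value {k : Type} [Field k] (f : k[X][X]) (t x : AlgebraicClosure k) :
    AlgebraicClosure k :=
  f.eval₂ (eval₂RingHom (algebraMap k (AlgebraicClosure k)) t) x

/-- The number of `(t, z_1, …, z_r)` with coordinates in `F_Q = {z : z^Q = z}` such that
`z_l^p - z_l = h_l(t)` for all `l`. -/
noncomputable def basePoints {k : Type} [Field k] (p : ℕ) {r : ℕ} (h : Fin r → k[X]) (Q : ℕ) : ℕ :=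
  Nat.card {v : AlgebraicClosure k × (Fin r → AlgebraicClosure k) //
    v.1 ^ Q = v.1 ∧ (∀ l, v.2 l ^ Q = v.2 l) ∧ ∀ l, v.2 l ^ p - v.2 l = baseValue (h l) v.1}

/-- The number of `(t, x, y, z_1, …, z_r)` with coordinates in `F_Q = {z : z^Q = z}` such that
`y^p - y = f(x, t)` and `z_l^p - z_l = h_l(t)` for all `l`. -/
noncomputable def points {k : Type} [Field k] (p : ℕ) {r : ℕ} (f : k[X][X]) (h : Fin r → k[X])
    (Q : ℕ) : ℕ :=
  Nat.card {v : AlgebraicClosure k × AlgebraicClosure k × AlgebraicClosure k ×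
      (Fin r → AlgebraicClosure k) //
    v.1 ^ Q = v.1 ∧ v.2.1 ^ Q = v.2.1 ∧ v.2.2.1 ^ Q = v.2.2.1 ∧ (∀ l, v.2.2.2 l ^ Q = v.2.2.2 l) ∧
    v.2.2.1 ^ p - v.2.2.1 = value f v.1 v.2.1 ∧
    ∀ l, v.2.2.2 l ^ p - v.2.2.2 l = baseValue (h l) v.1}

/-- The power series `∑_{n ≥ 1} (q^n S_n - N_n) T^n`, where `q = #k`, `S_n = basePoints p h (q^n)`
and `N_n = points p f h (q^n)`. -/
noncomputable def traces {k : Type} [Field k] [Fintype k] (p : ℕ) {r : ℕ} (f : k[X][X])
    (h : Fin r → k[X]) : PowerSeries ℚ :=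
  PowerSeries.mk fun n => if n = 0 then 0 else
    ((Fintype.card k : ℚ) ^ n * (basePoints p h (Fintype.card k ^ n) : ℚ) -
      (points p f h (Fintype.card k ^ n) : ℚ))

/-- `L(T) = exp (∑_{n ≥ 1} (q^n S_n - N_n) T^n / n)`: that is, `L(0) = 1` and
`T L' = L ∑_{n ≥ 1} (q^n S_n - N_n) T^n`. -/
def IsLFunction {k : Type} [Field k] [Fintype k] (p : ℕ) {r : ℕ} (f : k[X][X])
    (h : Fin r → k[X]) (L : ℚ[X]) : Prop :=
  L.coeff 0 = 1 ∧
    PowerSeries.X * PowerSeries.derivative ℚ (L : PowerSeries ℚ) =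
      (L : PowerSeries ℚ) * traces p f h

/-- `L` has at `T = 1 / q` the order of vanishing `ρ` and the leading coefficient `α`:
`L = (1 - q T)^ρ M` with `M(1/q) = α ≠ 0`. -/
def HasOrder (q : ℕ) (L : ℚ[X]) (ρ : ℕ) (α : ℚ) : Prop :=
  ∃ M : ℚ[X], L = (1 - C (q : ℚ) * X) ^ ρ * M ∧ M.eval (1 / (q : ℚ)) = α ∧ α ≠ 0

section lemmas

open Pool.Agent.N867.AS Pool.Agent.N867.AS.Tow Pool.Agent.U407 UniqueFactorizationMonoid

variable {k : Type} [Field k]

theorem form_eq {g : ℕ} {D : Finset (ℕ × ℕ)} (m : Member k g D) : form m = PF.mon m.2.1 := rfl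

theorem coeff_poly {a b g : ℕ} {D : Finset (ℕ × ℕ)} (m : Member k g D) (M N : ℕ) :
    ((poly a b m).coeff M).coeff N =
      (∑ i ∈ Finset.range (g + 1), if a * i = M ∧ b * (g - i) = N then
        (m.1 : k) * (form m).coeff i else 0) +
      ∑ d : D, if d.1.1 = M ∧ d.1.2 = N then m.2.2 d else 0 := by
  have h1 : ∀ (i j : ℕ) (c : k), ((monomial i (monomial j c) : k[X][X]).coeff M).coeff N =
      if i = M ∧ j = N then c else 0 := by
    intro i j c
    rw [coeff_monomial]
    by_cases h2 : i = M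
    · rw [if_pos h2, coeff_monomial]
      by_cases h3 : j = N
      · rw [if_pos h3, if_pos ⟨h2, h3⟩]
      · rw [if_neg h3, if_neg fun h => h3 h.2]
    · rw [if_neg h2, coeff_zero, if_neg fun h => h2 h.1]
  unfold poly
  rw [coeff_add, coeff_add, finsetSum_coeff, finsetSum_coeff, finsetSum_coeff, finsetSum_coeff]
  congr 1
  · exact Finset.sum_congr rfl fun i _ => h1 _ _ _
  · exact Finset.sum_congr rfl fun d _ => h1 _ _ _

theorem poly_wt {a b g : ℕ} {D : Finset (ℕ × ℕ)} (hD : ∀ d ∈ D, b * d.1 + a * d.2 < g * (a * b))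
    (m : Member k g D) (M N : ℕ) (h : ((poly a b m).coeff M).coeff N ≠ 0) :
    b * M + a * N ≤ g * (a * b) := by
  rw [coeff_poly] at h
  by_cases h1 : (∑ i ∈ Finset.range (g + 1), if a * i = M ∧ b * (g - i) = N then
        (m.1 : k) * (form m).coeff i else 0) = 0
  · rw [h1, zero_add] at h
    obtain ⟨d, -, hd⟩ := Finset.exists_ne_zero_of_sum_ne_zero h
    split_ifs at hd with h2
    · rw [← h2.1, ← h2.2]
      exact (hD d.1 d.2).le
    · exact absurd rfl hd
  · obtain ⟨i, hi, hd⟩ := Finset.exists_ne_zero_of_sum_ne_zero h1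
    rw [Finset.mem_range] at hi
    split_ifs at hd with h2
    · rw [← h2.1, ← h2.2]
      have h3 : i + (g - i) = g := by omega
      calc b * (a * i) + a * (b * (g - i)) = (i + (g - i)) * (a * b) := by ring
        _ ≤ g * (a * b) := by rw [h3]
    · exact absurd rfl hd

theorem poly_top {a b g : ℕ} (ha : a ≠ 0) {D : Finset (ℕ × ℕ)}
    (hD : ∀ d ∈ D, b * d.1 + a * d.2 < g * (a * b)) (m : Member k g D) :
    ∀ i ≤ g, ((poly a b m).coeff (a * i)).coeff (b * (g - i)) =
      (C (m.1 : k) * form m).coeff i := by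
  intro i hi
  rw [coeff_poly, coeff_C_mul, Finset.sum_eq_single i, if_pos ⟨rfl, rfl⟩, Finset.sum_eq_zero,
    add_zero]
  · intro d _
    refine if_neg fun h2 => ?_
    have h1 := hD d.1 d.2
    rw [h2.1, h2.2] at h1
    have h3 : i + (g - i) = g := by omega
    have h4 : b * (a * i) + a * (b * (g - i)) = g * (a * b) := by
      calc b * (a * i) + a * (b * (g - i)) = (i + (g - i)) * (a * b) := by ring
        _ = g * (a * b) := by rw [h3]
    omega
  · intro j _ hj
    exact if_neg fun h2 => hj (Nat.eq_of_mul_eq_mul_left (Nat.pos_of_ne_zero ha) h2.1)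
  · intro h
    exact absurd (Finset.mem_range.2 (by omega)) h

theorem points_eq (p : ℕ) {r : ℕ} (f : k[X][X]) (h : Fin r → k[X]) (Q : ℕ) :
    points p f h Q = ND p (fun _ : Fin 1 => f) h Q := by
  unfold points ND
  refine Nat.card_congr
    { toFun := fun v => ⟨(v.1.1, v.1.2.1, fun _ => v.1.2.2.1, v.1.2.2.2),
        v.2.1, v.2.2.1, fun _ => v.2.2.2.1, v.2.2.2.2.1, fun _ => v.2.2.2.2.2.1,
        v.2.2.2.2.2.2⟩
      invFun := fun v => ⟨(v.1.1, v.1.2.1, v.1.2.2.1 0, v.1.2.2.2),
        v.2.1, v.2.2.1, v.2.2.2.1 0, v.2.2.2.2.1, v.2.2.2.2.2.1 0,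
        v.2.2.2.2.2.2⟩
      left_inv := fun v => rfl
      right_inv := fun v => ?_ }
  apply Subtype.ext
  refine Prod.ext rfl (Prod.ext rfl (Prod.ext ?_ rfl))
  funext j
  rw [Subsingleton.elim j 0]

variable [Fintype k]

theorem pointwise (p : ℕ) (hp : p.Prime) [CharP k p] (s : ℕ) (hs : Fintype.card k = p ^ s)
    (a b g : ℕ) (hab : a.Coprime b) (hga : g * a ∣ p - 1) (hgb : g * b ∣ p - 1)
    (D : Finset (ℕ × ℕ)) (hD : ∀ d ∈ D, b * d.1 + a * d.2 < g * (a * b)) (m : Member k g D)
    (hm : IsGood p a b m) (r : ℕ) (h : Fin r → k[X]) (hh : ∀ l, (h l).natDegree < b * g)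
    (L : ℚ[X]) (hL : IsLFunction p (poly a b m) h L) (ρ : ℕ) (α : ℚ)
    (hρ : HasOrder (Fintype.card k) L ρ α) :
    ρ ≤ p ^ r * (p - 1) * (numFactors (form m) - 1) ∧
      -((s * (p ^ r * (p - 1)) : ℕ) : ℚ) * hodge a b g ≤ (padicValRat p α : ℚ) ∧
      ((padicValRat p α : ℚ) = -((s * (p ^ r * (p - 1)) : ℕ) : ℚ) * hodge a b g ↔
        ρ = p ^ r * (p - 1) * (numFactors (form m) - 1)) := by
  obtain ⟨M, hLM, hM, hα⟩ := hρ
  rw [← hM] at hα ⊢
  have hp1 : p - 1 ≠ 0 := by
    have := hp.two_le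
    omega
  have hga0 : g * a ≠ 0 := fun h => hp1 (by rwa [h, zero_dvd_iff] at hga)
  have ha : a ≠ 0 := right_ne_zero_of_mul hga0
  have hL2 := hL.2
  unfold traces at hL2
  simp only [points_eq] at hL2
  exact PF.one p hp s hs r a b g hab hga hgb m.1 m.1.ne_zero (form m) (PF.mon_monic _)
    (PF.mon_natDegree _) hm.1 hm.2 (poly a b m) (poly_wt hD m) (poly_top ha hD m) h hh L hL.1 hL2
    ρ M hLM hα

/-- the number of the choices of `u` and of the `φ` -/
noncomputable def rest (k : Type) [Field k] (D : Finset (ℕ × ℕ)) : ℚ :=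
  (Nat.card kˣ : ℚ) * Nat.card (D → k)

theorem rest_pos {D : Finset (ℕ × ℕ)} : 0 < rest k D := by
  unfold rest
  have h1 : 0 < Nat.card kˣ := Nat.card_pos
  have h2 : 0 < Nat.card (D → k) := Nat.card_pos
  positivity

omit [Fintype k] in
theorem card_sub {g : ℕ} {D : Finset (ℕ × ℕ)} (Q : (Fin g → k) → Prop) :
    (Nat.card {m : Member k g D // Q m.2.1} : ℚ) = rest k D * Nat.card {α : Fin g → k // Q α} := by
  have h1 : Nat.card {m : Member k g D // Q m.2.1} =
      Nat.card (kˣ × {α : Fin g → k // Q α} × (D → k)) :=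
    Nat.card_congr
      { toFun := fun m => (m.1.1, ⟨m.1.2.1, m.2⟩, m.1.2.2)
        invFun := fun m => ⟨(m.1, m.2.1.1, m.2.2), m.2.1.2⟩
        left_inv := fun m => rfl
        right_inv := fun m => rfl }
  rw [h1, Nat.card_prod, Nat.card_prod, rest]
  push_cast
  ring

omit [Fintype k] in
theorem card_member {g : ℕ} {D : Finset (ℕ × ℕ)} :
    (Nat.card (Member k g D) : ℚ) = rest k D * (Nat.card k : ℚ) ^ g := by
  rw [Nat.card_prod, Nat.card_prod, PF.card_all, rest]
  push_cast
  ring

theorem card_member_pos {g : ℕ} {D : Finset (ℕ × ℕ)} : (0 : ℚ) < Nat.card (Member k g D) := by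
  exact_mod_cast Nat.card_pos

theorem q_pos : (0 : ℚ) < Nat.card k := by
  exact_mod_cast Nat.card_pos

theorem proportion_mono {g : ℕ} {D : Finset (ℕ × ℕ)} {P Q : Member k g D → Prop}
    (h : ∀ m, P m → Q m) : proportion P ≤ proportion Q := by
  unfold proportion
  refine div_le_div_of_nonneg_right ?_ card_member_pos.le
  exact_mod_cast Nat.card_le_card_of_injective
    (fun m : {m // P m} => (⟨m.1, h m.1 m.2⟩ : {m // Q m})) fun x y hxy =>
      Subtype.ext (congrArg (fun z => z.1) hxy)

theorem proportion_sub {g : ℕ} {D : Finset (ℕ × ℕ)} (Q : (Fin g → k) → Prop) :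
    proportion (fun m : Member k g D => Q m.2.1) =
      (Nat.card {α : Fin g → k // Q α} : ℚ) / (Nat.card k : ℚ) ^ g := by
  unfold proportion
  rw [card_sub, card_member, mul_div_mul_left _ _ rest_pos.ne']

theorem sum_member {g : ℕ} {D : Finset (ℕ × ℕ)} (Q : (Fin g → k) → Prop) (F : (Fin g → k) → ℚ) :
    ∑ᶠ m : {m : Member k g D // Q m.2.1}, F m.1.2.1 =
      rest k D * ∑ᶠ α : {α : Fin g → k // Q α}, F α.1 := by
  classical
  have h1 : ∑ᶠ m : {m : Member k g D // Q m.2.1}, F m.1.2.1 =
      ∑ᶠ m : kˣ × {α : Fin g → k // Q α} × (D → k), F m.2.1.1 := by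
    refine finsum_eq_of_bijective (fun m : {m : Member k g D // Q m.2.1} =>
      ((m.1.1, ⟨m.1.2.1, m.2⟩, m.1.2.2) : kˣ × {α : Fin g → k // Q α} × (D → k))) ?_ fun m => rfl
    exact ⟨fun x y h => Subtype.ext (Prod.ext (congrArg (fun z => z.1) h)
      (Prod.ext (congrArg (fun z => z.2.1.1) h) (congrArg (fun z => z.2.2) h))),
      fun m => ⟨⟨(m.1, m.2.1.1, m.2.2), m.2.1.2⟩, rfl⟩⟩
  rw [h1, finsum_eq_sum_of_fintype, finsum_eq_sum_of_fintype, Fintype.sum_prod_type]
  simp only [Fintype.sum_prod_type]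
  simp only [Finset.sum_const, nsmul_eq_mul]
  rw [← Finset.mul_sum, Finset.card_univ, Finset.card_univ, ← Nat.card_eq_fintype_card,
    ← Nat.card_eq_fintype_card, rest]
  ring

omit [Fintype k] in
theorem good_eq {p a b g : ℕ} {D : Finset (ℕ × ℕ)} :
    (IsGood p a b : Member k g D → Prop) = fun m =>
      Squarefree (PF.mon m.2.1) ∧ LP.OrdP p a b g (PF.mon m.2.1) := rfl

theorem proportion_good {p : ℕ} [CharP k p] (hp : p.Prime) {a b g : ℕ} (ha : a ≠ 0) (hb : b ≠ 0)
    (hab : a.Coprime b) (hg : g ≠ 0) (hM : g * (a * b) ∣ p - 1) {D : Finset (ℕ × ℕ)} :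
    1 - (hasseDegree p a b g + 2 : ℚ) / Fintype.card k ≤
      proportion (IsGood p a b : Member k g D → Prop) := by
  have h1 := PF.card_good_ge (κ := k) hp ha hb hab hg hM
  rw [good_eq, proportion_sub (fun α : Fin g → k => Squarefree (PF.mon α) ∧
    LP.OrdP p a b g (PF.mon α)), le_div_iff₀ (pow_pos q_pos _), ← Nat.card_eq_fintype_card]
  refine le_trans (le_of_eq ?_) h1
  have h2 : (Nat.card k : ℚ) ^ g = (Nat.card k : ℚ) ^ (g - 1) * Nat.card k := by
    rw [← pow_succ, Nat.sub_add_cancel (Nat.one_le_iff_ne_zero.2 hg)]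
  have h3 : (PF.bnd p a b g : ℚ) = hasseDegree p a b g := rfl
  have h4 := (q_pos (k := k)).ne'
  rw [h3, sub_mul, h2]
  field_simp

theorem average_good {p : ℕ} [CharP k p] (hp : p.Prime) {a b g : ℕ} (ha : a ≠ 0) (hb : b ≠ 0)
    (hab : a.Coprime b) (hg : g ≠ 0) (hM : g * (a * b) ∣ p - 1) {D : Finset (ℕ × ℕ)} (K : ℕ)
    (hB : (hasseDegree p a b g + 2 : ℚ) < Fintype.card k) {ρ : Member k g D → ℕ}
    (hρ : ∀ m, IsGood p a b m → ρ m ≤ K * (numFactors (form m) - 1)) :
    average (IsGood p a b) (fun m : Member k g D => (ρ m : ℚ)) ≤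
      K * ((∑ i ∈ Finset.Icc 1 g, (1 : ℚ) / i) /
        (1 - (hasseDegree p a b g + 2 : ℚ) / Fintype.card k) - 1) := by
  classical
  have hq := q_pos (k := k)
  rw [← Nat.card_eq_fintype_card] at hB ⊢
  obtain ⟨Q, hQ⟩ : ∃ Q : (Fin g → k) → Prop, Q = fun α => Squarefree (PF.mon α) ∧
    LP.OrdP p a b g (PF.mon α) := ⟨_, rfl⟩
  have hgood : (IsGood p a b : Member k g D → Prop) = fun m => Q m.2.1 := by
    rw [hQ]
    rfl
  obtain ⟨G, hG⟩ : ∃ G : ℚ, G = Nat.card {α : Fin g → k // Q α} := ⟨_, rfl⟩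
  have h1 := PF.card_good_ge (κ := k) hp ha hb hab hg hM
  have h3 : (PF.bnd p a b g : ℚ) = hasseDegree p a b g := rfl
  rw [h3] at h1
  obtain ⟨B, hBd⟩ : ∃ B : ℚ, B = hasseDegree p a b g + 2 := ⟨_, rfl⟩
  rw [← hBd] at hB h1 ⊢
  have h2 : (Nat.card k : ℚ) ^ g = (Nat.card k : ℚ) ^ (g - 1) * Nat.card k := by
    rw [← pow_succ, Nat.sub_add_cancel (Nat.one_le_iff_ne_zero.2 hg)]
  have hc : 0 < 1 - B / (Nat.card k : ℚ) := by
    rw [sub_pos, div_lt_one hq]
    exact hB
  have hGle : (Nat.card k : ℚ) ^ g * (1 - B / Nat.card k) ≤ G := by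
    rw [hG]
    subst hQ
    refine le_trans (le_of_eq ?_) h1
    have h4 := hq.ne'
    rw [h2]
    field_simp
  have hG0 : 0 < G := lt_of_lt_of_le (mul_pos (pow_pos hq _) hc) hGle
  obtain ⟨H, hH⟩ : ∃ H : ℚ, H = ∑ i ∈ Finset.Icc 1 g, (1 : ℚ) / i := ⟨_, rfl⟩
  have hH0 : 0 ≤ H := by
    rw [hH]
    exact Finset.sum_nonneg fun i _ => by positivity
  rw [← hH]
  -- the sum of the numbers of factors
  have hsum : ∑ᶠ α : {α : Fin g → k // Q α}, (numFactors (PF.mon α.1) : ℚ) ≤
      (Nat.card k : ℚ) ^ g * H := by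
    have h5 := PF.sum_good_le (κ := k) g fun P => LP.OrdP p a b g P
    rw [hH]
    subst hQ
    exact h5
  have hstep : ∑ᶠ m : {m : Member k g D // IsGood p a b m}, (ρ m.1 : ℚ) ≤
      rest k D * (K * (((Nat.card k : ℚ) ^ g * H) - G)) := by
    have h6 : ∑ᶠ m : {m : Member k g D // Q m.2.1},
        ((K : ℚ) * ((numFactors (PF.mon m.1.2.1) : ℚ) - 1)) =
        rest k D * ∑ᶠ α : {α : Fin g → k // Q α}, (K : ℚ) * ((numFactors (PF.mon α.1) : ℚ) - 1) :=
      sum_member Q fun α => (K : ℚ) * ((numFactors (PF.mon α) : ℚ) - 1)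
    have h7 : ∑ᶠ α : {α : Fin g → k // Q α}, (K : ℚ) * ((numFactors (PF.mon α.1) : ℚ) - 1) =
        K * ((∑ᶠ α : {α : Fin g → k // Q α}, (numFactors (PF.mon α.1) : ℚ)) - G) := by
      rw [finsum_eq_sum_of_fintype, finsum_eq_sum_of_fintype, ← Finset.mul_sum,
        Finset.sum_sub_distrib, Finset.sum_const, nsmul_eq_mul, mul_one, Finset.card_univ, hG,
        Nat.card_eq_fintype_card]
    have h8 : ∑ᶠ m : {m : Member k g D // IsGood p a b m}, (ρ m.1 : ℚ) ≤
        ∑ᶠ m : {m : Member k g D // Q m.2.1},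
          ((K : ℚ) * ((numFactors (PF.mon m.1.2.1) : ℚ) - 1)) := by
      have h20 : ∑ᶠ m : {m : Member k g D // IsGood p a b m}, (ρ m.1 : ℚ) =
          ∑ᶠ m : {m : Member k g D // Q m.2.1}, (ρ m.1 : ℚ) := by
        subst hQ
        rfl
      rw [h20, finsum_eq_sum_of_fintype, finsum_eq_sum_of_fintype]
      refine Finset.sum_le_sum fun m _ => ?_
      have h9 := hρ m.1 (by
        rw [hgood]
        exact m.2)
      have h10 : 1 ≤ numFactors (form m.1) := by
        unfold numFactors
        by_contra h11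
        have h12 : (factors (form m.1)) = 0 := by
          rw [← Multiset.card_eq_zero]
          omega
        have h13 := factors_prod (a := form m.1) (PF.mon_monic m.1.2.1).ne_zero
        rw [h12, Multiset.prod_zero] at h13
        have h14 := natDegree_eq_of_degree_eq (degree_eq_degree_of_associated h13)
        have h15 : (form m.1).natDegree = g := PF.mon_natDegree m.1.2.1
        rw [natDegree_one, h15] at h14
        exact hg h14.symm
      have h16 : (ρ m.1 : ℚ) ≤ ((K * (numFactors (form m.1) - 1) : ℕ) : ℚ) := by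
        exact_mod_cast h9
      rw [Nat.cast_mul, Nat.cast_sub h10, Nat.cast_one] at h16
      exact h16
    rw [h6, h7] at h8
    refine h8.trans (mul_le_mul_of_nonneg_left (mul_le_mul_of_nonneg_left
      (sub_le_sub_right hsum _) (Nat.cast_nonneg _)) rest_pos.le)
  unfold average
  have hcard : (Nat.card {m : Member k g D // IsGood p a b m} : ℚ) = rest k D * G := by
    rw [hG, ← card_sub Q, hgood]
  rw [hcard, div_le_iff₀ (mul_pos rest_pos hG0)]
  refine hstep.trans ?_
  have h17 : (Nat.card k : ℚ) ^ g * H ≤ H / (1 - B / Nat.card k) * G := by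
    rw [div_mul_eq_mul_div, le_div_iff₀ hc]
    nlinarith
  have h18 : (K : ℚ) * ((Nat.card k : ℚ) ^ g * H - G) ≤
      K * (H / (1 - B / Nat.card k) * G - G) :=
    mul_le_mul_of_nonneg_left (sub_le_sub_right h17 _) (Nat.cast_nonneg _)
  calc rest k D * (K * ((Nat.card k : ℚ) ^ g * H - G))
      ≤ rest k D * (K * (H / (1 - B / Nat.card k) * G - G)) :=
        mul_le_mul_of_nonneg_left h18 rest_pos.le
    _ = K * (H / (1 - B / Nat.card k) - 1) * (rest k D * G) := by ring

end lemmas

/-- Let `k` be the field with `q = p^s` elements, `a` and `b` coprime, `g a` and `g b` divisors of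
`p - 1`, `D` a finite set of exponents with `b m + a n < g a b`, and `B = hasseDegree p a b g`. For
a member `m = (u, Φ, φ)` of the family let `e` be the number of irreducible factors of `Φ`. Let
`h_1, …, h_r` be polynomials of degree less than `b g`, and let `L` be the `L`-function of the
Jacobian of `y^p - y = f(x, t)` over the function field of `z_l^p - z_l = h_l(t)` without the Euler
factors at infinity, of order `ρ` and leading coefficient `α` at `T = 1 / q`. Then:

(1) if the member is good, then `ρ ≤ p^r (p - 1) (e - 1)` and `v_p(α) ≥ -s p^r (p - 1) hodge`, with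
equality in the second inequality if and only if there is equality in the first one;

(2) a proportion of at least `1 - (B + 2) / q` of the members is good, and if `q > B + 2`, then the
average of `ρ` over the good members, where the `h_l` may depend on the member, is at most
`p^r (p - 1) ((1 + 1/2 + ⋯ + 1/g) / (1 - (B + 2) / q) - 1)`;

(3) for a proportion of at least `1 / g - (B + 1) / q` of all the members `L(1/q) ≠ 0` and
`v_p(L(1/q)) = -s p^r (p - 1) hodge` hold for all `r` and all `h_1, …, h_r`. -/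
theorem result (p : ℕ) (hp : p.Prime) (k : Type) [Field k] [Fintype k] [CharP k p] (s : ℕ)
    (hs : Fintype.card k = p ^ s) (a b g : ℕ) (hab : a.Coprime b) (hga : g * a ∣ p - 1)
    (hgb : g * b ∣ p - 1) (D : Finset (ℕ × ℕ)) (hD : ∀ d ∈ D, b * d.1 + a * d.2 < g * (a * b)) :
    (∀ (m : Member k g D) (r : ℕ) (h : Fin r → k[X]) (L : ℚ[X]) (ρ : ℕ) (α : ℚ),
      IsGood p a b m → (∀ l, (h l).natDegree < b * g) → IsLFunction p (poly a b m) h L →
      HasOrder (Fintype.card k) L ρ α →
        ρ ≤ p ^ r * (p - 1) * (numFactors (form m) - 1) ∧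
        -((s * (p ^ r * (p - 1)) : ℕ) : ℚ) * hodge a b g ≤ (padicValRat p α : ℚ) ∧
        ((padicValRat p α : ℚ) = -((s * (p ^ r * (p - 1)) : ℕ) : ℚ) * hodge a b g ↔
          ρ = p ^ r * (p - 1) * (numFactors (form m) - 1))) ∧
    1 - (hasseDegree p a b g + 2 : ℚ) / Fintype.card k ≤
      proportion (IsGood p a b : Member k g D → Prop) ∧
    ((hasseDegree p a b g + 2 : ℚ) < Fintype.card k →
      ∀ (r : ℕ) (h : Member k g D → Fin r → k[X]) (L : Member k g D → ℚ[X])
        (ρ : Member k g D → ℕ) (α : Member k g D → ℚ),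
        (∀ m l, (h m l).natDegree < b * g) →
        (∀ m, IsGood p a b m → IsLFunction p (poly a b m) (h m) (L m) ∧
          HasOrder (Fintype.card k) (L m) (ρ m) (α m)) →
        average (IsGood p a b) (fun m => (ρ m : ℚ)) ≤
          ((p ^ r * (p - 1) : ℕ) : ℚ) * ((∑ i ∈ Finset.Icc 1 g, (1 : ℚ) / i) /
            (1 - (hasseDegree p a b g + 2 : ℚ) / Fintype.card k) - 1)) ∧
    1 / (g : ℚ) - (hasseDegree p a b g + 1 : ℚ) / Fintype.card k ≤
      proportion (fun m : Member k g D => ∀ (r : ℕ) (h : Fin r → k[X]) (L : ℚ[X]),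
        (∀ l, (h l).natDegree < b * g) → IsLFunction p (poly a b m) h L →
          L.eval (1 / (Fintype.card k : ℚ)) ≠ 0 ∧
          (padicValRat p (L.eval (1 / (Fintype.card k : ℚ))) : ℚ) =
            -((s * (p ^ r * (p - 1)) : ℕ) : ℚ) * hodge a b g) := by
  have hp1 : p - 1 ≠ 0 := by
    have := hp.two_le
    omega
  have hga0 : g * a ≠ 0 := fun h => hp1 (by rwa [h, zero_dvd_iff] at hga)
  have hgb0 : g * b ≠ 0 := fun h => hp1 (by rwa [h, zero_dvd_iff] at hgb)
  have hg0 : g ≠ 0 := left_ne_zero_of_mul hga0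
  have ha : a ≠ 0 := right_ne_zero_of_mul hga0
  have hb : b ≠ 0 := right_ne_zero_of_mul hgb0
  have hM : g * (a * b) ∣ p - 1 := Pool.Agent.N867.AS.TV.dvd_M hab hg0 hga hgb
  refine ⟨fun m r h L ρ α hm hh hL hρ => pointwise p hp s hs a b g hab hga hgb D hD m hm r h hh L
    hL ρ α hρ, proportion_good hp ha hb hab hg0 hM, fun hB r h L ρ α hh hL => ?_, ?_⟩
  · refine average_good hp ha hb hab hg0 hM _ hB fun m hm => ?_
    obtain ⟨hL1, hL2⟩ := hL m hm
    exact (pointwise p hp s hs a b g hab hga hgb D hD m hm r (h m) (hh m) (L m) hL1 (ρ m) (α m)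
      hL2).1
  · have h1 := Pool.Agent.U407.PF.card_irr_good_ge (κ := k) hp ha hb hab hg0 hM
    have h2 : 1 / (g : ℚ) - (hasseDegree p a b g + 1 : ℚ) / Fintype.card k ≤
        proportion (fun m : Member k g D => Irreducible (Pool.Agent.U407.PF.mon m.2.1) ∧
          Pool.Agent.N867.AS.LP.OrdP p a b g (Pool.Agent.U407.PF.mon m.2.1)) := by
      rw [proportion_sub (fun α : Fin g → k => Irreducible (Pool.Agent.U407.PF.mon α) ∧
        Pool.Agent.N867.AS.LP.OrdP p a b g (Pool.Agent.U407.PF.mon α)),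
        le_div_iff₀ (pow_pos q_pos _), ← Nat.card_eq_fintype_card]
      refine le_trans (le_of_eq ?_) h1
      have h2 : (Nat.card k : ℚ) ^ g = (Nat.card k : ℚ) ^ (g - 1) * Nat.card k := by
        rw [← pow_succ, Nat.sub_add_cancel (Nat.one_le_iff_ne_zero.2 hg0)]
      have h3 : (Pool.Agent.U407.PF.bnd p a b g : ℚ) = hasseDegree p a b g := rfl
      have h4 := (q_pos (k := k)).ne'
      rw [h3, sub_mul, h2]
      field_simp
    refine h2.trans (proportion_mono fun m hm r h L hh hL => ?_)
    have hgood : IsGood p a b m := ⟨hm.1.squarefree, hm.2⟩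
    have hq : (Fintype.card k : ℚ) ≠ 0 := by
      have := Fintype.card_ne_zero (α := k)
      exact_mod_cast this
    have hL0 : L ≠ 0 := by
      intro h0
      have h1 := hL.1
      rw [h0, coeff_zero] at h1
      exact zero_ne_one h1
    obtain ⟨ρ, M, hLM, hMe⟩ := Pool.Agent.U407.LF.exists_order hq hL0
    obtain ⟨h5, -, h6⟩ := pointwise p hp s hs a b g hab hga hgb D hD m hgood r h hh L hL ρ
      (M.eval (1 / (Fintype.card k : ℚ))) ⟨M, hLM, rfl, hMe⟩
    have he : numFactors (form m) = 1 := Pool.Agent.U407.LF.card_factors_eq_one hm.1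
    rw [he, Nat.sub_self, mul_zero] at h5 h6
    have hρ0 : ρ = 0 := Nat.le_zero.1 h5
    subst hρ0
    rw [pow_zero, one_mul] at hLM
    rw [hLM]
    exact ⟨hMe, h6.2 rfl⟩

end Pool.Agent.Results.MP_1d384c_nt.LeadingFormStatistics
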