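import Pool.Agent.N867.AS.X4

/-!
# Order of vanishing of the `L`-functions of Jacobians of elementary abelian covers over elementary
# abelian towers of function fields

Let `k` be the field with `q = p^s` elements, `S` the curve `z_i^p - z_i = h_i(t)`, `i < r`, over the affine
line with coordinate `t`, and `K = k(S)`. Consider the curve `X : y_j^p - y_j = f_j(x, t)`, `j < m`, over
`K`, an elementary abelian cover of the projective line over `K`, and its Jacobian `J`. The function

  `L(T) = exp (∑_{n ≥ 1} (q^n S_n - N_n) T^n / n)`,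

`N_n` and `S_n` being the numbers of the points over the field with `q^n` elements of the affine surface and
of the affine curve given by these equations, is the `L`-function of `J`, up to the Euler factors at the
points of `S` at infinity; `T = q^{-s}`, and the central point `s = 1` is `T = 1 / q`.

The group `(ℤ/p)^{m + r}` acts; the characters which do not factor through the base correspond to the
combinations `f_v = ∑ a_j f_j + ∑ b_i h_i` with `a ≠ 0`. Suppose that each `f_v` has a leading form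

  `u_v ∏_i H_{v,i}`  (in `x^{a_v} / t^{b_v}`, homogenised), of degree `g_v`,

with different monic irreducible polynomials `H_{v,i}`, `i < e_v`, over `k`, whose product is ordinary (all
its Hasse-Witt matrices are invertible) or of the form `X^g - c`, `c ≠ 0`. The starting file `LeadingForm` of
this folder treats `r = 0`, `m = 1`: the order is at most `(p - 1) (e - 1)`, with equality if `f` is a product.
Here the base and the cover are towers of arbitrary height and the polynomials `a_v, b_v, g_v, H_v` may depend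
on `v`, and we add the `p`-adic size of the leading coefficient:

* the order of vanishing at `T = 1 / q` is at most `R = ∑_v (e_v - 1)`; since the rank of `J(K)` is at most
  the order (Tate), `rank J(K) ≤ R`, and if all the leading forms are irreducible then the conjecture of
  Birch and Swinnerton-Dyer holds for `J` over the whole tower, with order and rank zero, in all heights;
* the `p`-adic valuation of the leading coefficient at `T = 1 / q` is at least `-s ∑_v hodge_v`, and it is
  equal to this number if and only if the order is exactly `R`.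
-/

set_option autoImplicit false

namespace Pool.Agent.Results.MP_1d384c_nt.ArtinSchreierTowers

open Polynomial

/-- All monomials `x^m t^n` of `f ∈ k[t][x]` (outer variable `x`, inner variable `t`) satisfy
`b m + a n ≤ g a b`, and those with equality make up `∑_{r ≤ g} Φ_r x^{a r} t^{b (g - r)}`, where
`Φ_r` is the coefficient of `X^r` in `Φ`. -/
structure Leads {k : Type} [Field k] (a b g : ℕ) (Φ : k[X]) (f : k[X][X]) : Prop where
  wt : ∀ m n, (f.coeff m).coeff n ≠ 0 → b * m + a * n ≤ g * (a * b)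
  top : ∀ r ≤ g, (f.coeff (a * r)).coeff (b * (g - r)) = Φ.coeff r

/-- The pairs `u = (u_1, u_2)` of positive integers with `b u_1 + a u_2 = w`. -/
abbrev Lattice (a b w : ℕ) : Type :=
  {u : Fin (w + 1) × Fin (w + 1) //
    0 < (u.1 : ℕ) ∧ 0 < (u.2 : ℕ) ∧ b * (u.1 : ℕ) + a * (u.2 : ℕ) = w}

/-- The matrix with entries the coefficients of `X^{(p v_1 - u_1)/a}` in `Φ^n`, for `u` and `v` in
`Lattice a b w`. -/
noncomputable def hasseWitt {k : Type} [Field k] (p a b w n : ℕ) (Φ : k[X]) :
    Matrix (Lattice a b w) (Lattice a b w) k :=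
  Matrix.of fun u v => (Φ ^ n).coeff ((p * (v.1.1 : ℕ) - (u.1.1 : ℕ)) / a)

/-- For every `w` with `0 < w < g a b` the matrix `hasseWitt` of `Φ^{(p-1)w/(gab)}` is
invertible. -/
def Ordinary {k : Type} [Field k] (p a b g : ℕ) (Φ : k[X]) : Prop :=
  ∀ w, 0 < w → w < g * (a * b) → (hasseWitt p a b w ((p - 1) * w / (g * (a * b))) Φ).det ≠ 0

/-- `Φ = X^g - c` with `c ≠ 0`. -/
def Diagonal {k : Type} [Field k] (g : ℕ) (Φ : k[X]) : Prop :=
  ∃ c : k, c ≠ 0 ∧ Φ = X ^ g - C c

/-- The sum of `1 - w / (g a b)` over all pairs `(u_1, u_2)` of positive integers with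
`w = b u_1 + a u_2 < g a b`. -/
noncomputable def hodge (a b g : ℕ) : ℚ :=
  ∑ w ∈ Finset.range (g * (a * b)),
    (Fintype.card (Lattice a b w) : ℚ) * (1 - (w : ℚ) / ((g * (a * b) : ℕ) : ℚ))

/-- The value `h(t)` at an element `t` of an algebraic closure of `k`. -/
noncomputable def baseValue {k : Type} [Field k] (h : k[X]) (t : AlgebraicClosure k) :
    AlgebraicClosure k :=
  h.eval₂ (algebraMap k (AlgebraicClosure k)) t

/-- The value `f(x, t)` at a point with coordinates in an algebraic closure of `k`. -/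
noncomputable def value {k : Type} [Field k] (f : k[X][X]) (t x : AlgebraicClosure k) :
    AlgebraicClosure k :=
  f.eval₂ (eval₂RingHom (algebraMap k (AlgebraicClosure k)) t) x

/-- The number of `(t, z_1, …, z_r)` with coordinates in `F_Q = {z : z^Q = z}` such that
`z_i^p - z_i = h_i(t)` for all `i`. -/
noncomputable def basePoints {k : Type} [Field k] (p : ℕ) {r : ℕ} (h : Fin r → k[X]) (Q : ℕ) : ℕ :=
  Nat.card {v : AlgebraicClosure k × (Fin r → AlgebraicClosure k) //
    v.1 ^ Q = v.1 ∧ (∀ i, v.2 i ^ Q = v.2 i) ∧ ∀ i, v.2 i ^ p - v.2 i = baseValue (h i) v.1}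

/-- The number of `(t, x, y_1, …, y_m, z_1, …, z_r)` with coordinates in `F_Q = {z : z^Q = z}`
such that `y_j^p - y_j = f_j(x, t)` for all `j` and `z_i^p - z_i = h_i(t)` for all `i`. -/
noncomputable def points {k : Type} [Field k] (p : ℕ) {m r : ℕ} (f : Fin m → k[X][X])
    (h : Fin r → k[X]) (Q : ℕ) : ℕ :=
  Nat.card {v : AlgebraicClosure k × AlgebraicClosure k × (Fin m → AlgebraicClosure k) ×
      (Fin r → AlgebraicClosure k) //
    v.1 ^ Q = v.1 ∧ v.2.1 ^ Q = v.2.1 ∧ (∀ j, v.2.2.1 j ^ Q = v.2.2.1 j) ∧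
    (∀ i, v.2.2.2 i ^ Q = v.2.2.2 i) ∧
    (∀ j, v.2.2.1 j ^ p - v.2.2.1 j = value (f j) v.1 v.2.1) ∧
    (∀ i, v.2.2.2 i ^ p - v.2.2.2 i = baseValue (h i) v.1)}

/-- The power series `∑_{n ≥ 1} (q^n S_n - N_n) T^n`, where `q = #k`, `S_n = basePoints p h (q^n)` and
`N_n = points p f h (q^n)`. -/
noncomputable def traces {k : Type} [Field k] [Fintype k] (p : ℕ) {m r : ℕ}
    (f : Fin m → k[X][X]) (h : Fin r → k[X]) : PowerSeries ℚ :=
  PowerSeries.mk fun n => if n = 0 then 0 else
    ((Fintype.card k : ℚ) ^ n * (basePoints p h (Fintype.card k ^ n) : ℚ) -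
      (points p f h (Fintype.card k ^ n) : ℚ))

/-- `L(T) = exp (∑_{n ≥ 1} (q^n S_n - N_n) T^n / n)`: that is, `L(0) = 1` and
`T L' = L ∑_{n ≥ 1} (q^n S_n - N_n) T^n`. -/
def IsLFunction {k : Type} [Field k] [Fintype k] (p : ℕ) {m r : ℕ} (f : Fin m → k[X][X])
    (h : Fin r → k[X]) (L : ℚ[X]) : Prop :=
  L.coeff 0 = 1 ∧
    PowerSeries.X * PowerSeries.derivative ℚ (L : PowerSeries ℚ) =
      (L : PowerSeries ℚ) * traces p f h

/-- The pairs `(a, b)` of vectors `a ∈ {0, …, p - 1}^m`, `b ∈ {0, …, p - 1}^r` with `a ≠ 0`. -/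
abbrev Index (p m r : ℕ) : Type :=
  {v : (Fin m → Fin p) × (Fin r → Fin p) // ∃ j, (v.1 j : ℕ) ≠ 0}

/-- `∑ a_j f_j(x, t) + ∑ b_i h_i(t)`. -/
noncomputable def comb {k : Type} [Field k] {p m r : ℕ} (f : Fin m → k[X][X]) (h : Fin r → k[X])
    (v : Index p m r) : k[X][X] :=
  ∑ j, ((v.1.1 j : ℕ) : k[X][X]) * f j + ∑ i, ((v.1.2 i : ℕ) : k[X][X]) * C (h i)

theorem Leads.lead {k : Type} [Field k] {a b g : ℕ} {Φ : k[X]} {f : k[X][X]}
    (h : Leads a b g Φ f) (hΦ : Φ.natDegree = g) : Pool.Agent.N867.AS.Final2.Lead a b g Φ f := by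
  refine ⟨h.wt, ?_⟩
  ext r
  rcases Nat.lt_or_ge g r with hr | hr
  · have h1 : Φ.coeff r = 0 := coeff_eq_zero_of_natDegree_lt (by rw [hΦ]; exact hr)
    rw [h1, Pool.Agent.N867.AS.TV.topPoly, finsetSum_coeff]
    refine Finset.sum_eq_zero fun i hi => ?_
    rw [coeff_C_mul, coeff_X_pow, if_neg, mul_zero]
    have := Finset.mem_range.1 hi
    omega
  · rw [Pool.Agent.N867.AS.RG.top_coeff a b g f hr, h.top r hr]

/-- Let `f_1, …, f_m ∈ k[t][x]` and `h_1, …, h_r ∈ k[t]`. Suppose that for every combination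
`f_v = ∑ a_j f_j + ∑ b_i h_i` with `a ≠ 0` there are coprime `a_v, b_v` and `g_v` with `g_v a_v` and
`g_v b_v` dividing `p - 1`, and different monic irreducible polynomials `H_{v,i}`, `i < e_v`, of total
degree `g_v`, whose product is ordinary or of the form `X^g - c`, such that `f_v` has the leading form
`u_v ∏_i H_{v,i}`, `u_v ≠ 0`. Write the `L`-function of the Jacobian of the curve `y_j^p - y_j = f_j(x, t)`
over the function field of `z_i^p - z_i = h_i(t)`, without the Euler factors at infinity, as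
`L = (1 - q T)^ρ M` with `M(1/q) ≠ 0`, and put `q = p^s`. Then `ρ ≤ R = ∑_v (e_v - 1)`, and the
`p`-adic valuation of `M(1/q)` is at least `-s ∑_v hodge a_v b_v g_v`, with equality if and only if
`ρ = R`. -/
theorem result (p : ℕ) (hp : p.Prime) (k : Type) [Field k] [Fintype k] [CharP k p] (s : ℕ)
    (hs : Fintype.card k = p ^ s) (m r : ℕ) (f : Fin m → k[X][X]) (h : Fin r → k[X])
    (a b g e : Index p m r → ℕ) (hab : ∀ v, (a v).Coprime (b v)) (hga : ∀ v, g v * a v ∣ p - 1)
    (hgb : ∀ v, g v * b v ∣ p - 1) (u : Index p m r → k) (hu : ∀ v, u v ≠ 0)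
    (H : ∀ v, Fin (e v) → k[X]) (hirr : ∀ v i, Irreducible (H v i))
    (hmon : ∀ v i, (H v i).Monic) (hinj : ∀ v, Function.Injective (H v))
    (hdeg : ∀ v, ∑ i, (H v i).natDegree = g v)
    (hord : ∀ v, Ordinary p (a v) (b v) (g v) (∏ i, H v i) ∨ Diagonal (g v) (∏ i, H v i))
    (hf : ∀ v, Leads (a v) (b v) (g v) (C (u v) * ∏ i, H v i) (comb f h v))
    (L : ℚ[X]) (hL : IsLFunction p f h L) (ρ : ℕ) (M : ℚ[X])
    (hLM : L = (1 - C (Fintype.card k : ℚ) * X) ^ ρ * M)
    (hM : M.eval (1 / (Fintype.card k : ℚ)) ≠ 0) :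
    ρ ≤ ∑ v, (e v - 1) ∧
      -((s : ℚ) * ∑ v, hodge (a v) (b v) (g v)) ≤
        (padicValRat p (M.eval (1 / (Fintype.card k : ℚ))) : ℚ) ∧
      ((padicValRat p (M.eval (1 / (Fintype.card k : ℚ))) : ℚ) =
        -((s : ℚ) * ∑ v, hodge (a v) (b v) (g v)) ↔ ρ = ∑ v, (e v - 1)) := by
  have hp1 : p - 1 ≠ 0 := by
    have := hp.two_le
    omega
  have hga0 : ∀ v, g v * a v ≠ 0 := fun v h => hp1 (by
    have := hga v
    rwa [h, zero_dvd_iff] at this)
  have hgb0 : ∀ v, g v * b v ≠ 0 := fun v h => hp1 (by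
    have := hgb v
    rwa [h, zero_dvd_iff] at this)
  have hg := fun v => left_ne_zero_of_mul (hga0 v)
  have ha := fun v => right_ne_zero_of_mul (hga0 v)
  have hb := fun v => right_ne_zero_of_mul (hgb0 v)
  have hΦ : ∀ v, (∏ i, H v i).natDegree = g v := fun v => by
    rw [natDegree_prod_of_monic _ _ fun i _ => hmon v i, hdeg]
  have hΦu : ∀ v, (C (u v) * ∏ i, H v i).natDegree = g v := fun v => by
    rw [natDegree_C_mul (hu v), hΦ]
  have hord' : ∀ v, Pool.Agent.N867.AS.LP.OrdP p (a v) (b v) (g v) (∏ i, H v i) := by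
    intro v
    rcases hord v with h | ⟨c, hc, h⟩
    · exact h
    · rw [h]
      exact Pool.Agent.N867.AS.LP.ord_diag hp (ha v) (hb v) (hab v) (hg v)
        (Pool.Agent.N867.AS.TV.dvd_M (hab v) (hg v) (hga v) (hgb v)) hc
  exact Pool.Agent.N867.AS.Tow.main2 p hp k s hs m r f h a b g e hab hga hgb u hu H hirr hmon hinj
    hΦ hord' (fun v => (hf v).lead (hΦu v)) L hL.1 hL.2 ρ M hLM hM

end Pool.Agent.Results.MP_1d384c_nt.ArtinSchreierTowers
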