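import Pool.Agent.U407.SP
import Pool.Agent.U407.LF

/-!
# Order of vanishing and leading coefficient of the `L`-functions of Jacobians of Artin–Schreier
# curves with a simple pole of arbitrary residue polynomial

Let `k` be the field with `q = p^s` elements, `S` the curve `z_i^p - z_i = h_i(t)`, `i < r`, over
the affine line with coordinate `t`, and `K = k(S)`. Consider the curve
`X : y_j^p - y_j = f_j(x, t) / x`, `j < m`, over `K`, an elementary abelian cover of the projective
line over `K` with a simple pole at `x = 0`, and its Jacobian `J`. The function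

  `L(T) = exp (∑_{n ≥ 1} ((q^n - 1) S_n - N_n) T^n / n)`,

`N_n` and `S_n` being the numbers of the points over the field with `q^n` elements of the affine
surface (`x ≠ 0`) and of the affine curve given by these equations, is the `L`-function of `J`, up to
the Euler factors at the points of `S` at infinity; the central point is `T = 1 / q`.

The characters of the group `(ℤ/p)^{m + r}` which do not factor through the base correspond to the
combinations `f_v = ∑ a_j f_j + x ∑ b_i h_i` with `a ≠ 0`. We suppose that the exponents of `f_v`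
lie in the triangle with the vertices `(0, 0)`, `(a_v, 0)`, `(0, b_v)`, that the coefficient at
`(a_v, 0)` is not zero, and that

  `f_v(0, t) = u_v ∏_i P_{v,i}(t)`,  `i < e_v`,

with different monic irreducible polynomials over `k` of total degree `b_v`, where `a_v ≥ 2` and
`b_v ≥ 1` are coprime and `b_v (a_v - 1)` divides `p - 1`. So the residue polynomial `f_v(0, t)` is an
arbitrary squarefree polynomial of degree `b_v`; at its roots the ramification at `x = 0` disappears,
and these are the places where the Jacobian has bad reduction in the affine part.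

* The order of vanishing `ρ` of `L` at `T = 1 / q` is at most `R = ∑_v (e_v - 1)`; so
  `rank J(K) ≤ R` (Tate). For one equation (`m = 1`, `r = 0`) this says that rank and order are at
  most `(p - 1) (e - 1)`, where `e` is the number of the places of `k[t]` dividing `f(0, t)`.
* The `p`-adic valuation of the leading coefficient at `T = 1 / q` is at least `-N`, where `N` is `s`
  times a sum over lattice points, and it is equal to `-N` if and only if the order is exactly `R`.
* If all the polynomials `f_v(0, t)` are irreducible, then `L` does not vanish at `T = 1 / q`, so that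
  rank and order are both `0`, in towers of arbitrary height, and the valuation of `L(1/q)` is `-N`.

In the hand-ins of the starting library on such curves the edges of the Newton polygon carry
binomials (`MP_7f58ab_ag.SeveralSlopes`) or `f` is a polynomial in `x` and `t` with an ordinary
leading form (`MP_1d384c_nt.LeadingForm`, and over towers `MP_1d384c_nt.ArtinSchreierTowers`). Here
the edge on the line of the exponents `x^{-1} t^j` carries an arbitrary squarefree polynomial and
there is no ordinarity condition.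

The theorem is put together from the analysis of the Dwork operators for one family of curves with a
simple pole (`Pool.Agent.N867.AS.K14`) and the counting identity for elementary abelian covers
(`Pool.Agent.N867.AS.K15`) of the starting library.
-/

set_option autoImplicit false

namespace Pool.Agent.Results.MP_1d384c_nt.SimplePole

open Polynomial

/-- `f ∈ k[t][x]` (outer variable `x`, inner variable `t`). All monomials `x^i t^j` of `f` satisfy
`b i + a j ≤ a b`, the coefficient of `x^a` is not zero, and `f(0, t) = u ∏ P_i(t)`, where the `P_i`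
are different monic irreducible polynomials of total degree `b` and `u ≠ 0`; `a ≥ 2` and `b ≥ 1` are
coprime and `b (a - 1)` divides `p - 1`. -/
structure HasPole {k : Type} [Field k] (p a b e : ℕ) (u : k) (P : Fin e → k[X]) (f : k[X][X]) :
    Prop where
  degX : 2 ≤ a
  degT : 1 ≤ b
  coprime : a.Coprime b
  size : b * (a - 1) ∣ p - 1
  triangle : ∀ i j, (f.coeff i).coeff j ≠ 0 → b * i + a * j ≤ a * b
  corner : (f.coeff a).coeff 0 ≠ 0
  unit : u ≠ 0
  irreducible : ∀ i, Irreducible (P i)
  monic : ∀ i, (P i).Monic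
  different : Function.Injective P
  degree : (∏ i, P i).natDegree = b
  residue : f.coeff 0 = C u * ∏ i, P i

/-- The sum of `1 - (b i + a j) / M`, `M = b (a - 1)`, over all pairs `(i, j)` of integers with
`i ≥ 0`, `j > 0` and `b i + a j < M`. -/
noncomputable def hodge (a b : ℕ) : ℚ :=
  ∑ i ∈ Finset.range (b * (a - 1)), ∑ j ∈ Finset.range (b * (a - 1)),
    if 0 < j ∧ b * i + a * j < b * (a - 1) then
      1 - ((b * i + a * j : ℕ) : ℚ) / ((b * (a - 1) : ℕ) : ℚ) else 0

/-- The value `h(t)` at an element `t` of an algebraic closure of `k`. -/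
noncomputable def baseValue {k : Type} [Field k] (h : k[X]) (t : AlgebraicClosure k) :
    AlgebraicClosure k :=
  h.eval₂ (algebraMap k (AlgebraicClosure k)) t

/-- The value `f(x, t)` at a point with coordinates in an algebraic closure of `k`. -/
noncomputable def value {k : Type} [Field k] (f : k[X][X]) (t x : AlgebraicClosure k) :
    AlgebraicClosure k :=
  f.eval₂ (eval₂RingHom (algebraMap k (AlgebraicClosure k)) t) x

/-- The number of `(t, z_1, …, z_r)` with coordinates in `F_Q = {z : z^Q = z}` such that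
`z_i^p - z_i = h_i(t)` for all `i`. -/
noncomputable def basePoints {k : Type} [Field k] (p : ℕ) {r : ℕ} (h : Fin r → k[X]) (Q : ℕ) : ℕ :=
  Nat.card {v : AlgebraicClosure k × (Fin r → AlgebraicClosure k) //
    v.1 ^ Q = v.1 ∧ (∀ i, v.2 i ^ Q = v.2 i) ∧ ∀ i, v.2 i ^ p - v.2 i = baseValue (h i) v.1}

/-- The number of `(t, x, y_1, …, y_m, z_1, …, z_r)` with coordinates in `F_Q = {z : z^Q = z}`
such that `x ≠ 0`, `(y_j^p - y_j) x = f_j(x, t)` for all `j` and `z_i^p - z_i = h_i(t)` for all
`i`. -/
noncomputable def points {k : Type} [Field k] (p : ℕ) {m r : ℕ} (f : Fin m → k[X][X])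
    (h : Fin r → k[X]) (Q : ℕ) : ℕ :=
  Nat.card {v : AlgebraicClosure k × AlgebraicClosure k × (Fin m → AlgebraicClosure k) ×
      (Fin r → AlgebraicClosure k) //
    v.1 ^ Q = v.1 ∧ v.2.1 ^ Q = v.2.1 ∧ v.2.1 ≠ 0 ∧ (∀ j, v.2.2.1 j ^ Q = v.2.2.1 j) ∧
    (∀ i, v.2.2.2 i ^ Q = v.2.2.2 i) ∧
    (∀ j, (v.2.2.1 j ^ p - v.2.2.1 j) * v.2.1 = value (f j) v.1 v.2.1) ∧
    (∀ i, v.2.2.2 i ^ p - v.2.2.2 i = baseValue (h i) v.1)}

/-- The power series `∑_{n ≥ 1} ((q^n - 1) S_n - N_n) T^n`, where `q = #k`,
`S_n = basePoints p h (q^n)` and `N_n = points p f h (q^n)`. -/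
noncomputable def traces {k : Type} [Field k] [Fintype k] (p : ℕ) {m r : ℕ}
    (f : Fin m → k[X][X]) (h : Fin r → k[X]) : PowerSeries ℚ :=
  PowerSeries.mk fun n => if n = 0 then 0 else
    (((Fintype.card k : ℚ) ^ n - 1) * (basePoints p h (Fintype.card k ^ n) : ℚ) -
      (points p f h (Fintype.card k ^ n) : ℚ))

/-- `L(T) = exp (∑_{n ≥ 1} ((q^n - 1) S_n - N_n) T^n / n)`: that is, `L(0) = 1` and
`T L' = L ∑_{n ≥ 1} ((q^n - 1) S_n - N_n) T^n`. -/
def IsLFunction {k : Type} [Field k] [Fintype k] (p : ℕ) {m r : ℕ} (f : Fin m → k[X][X])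
    (h : Fin r → k[X]) (L : ℚ[X]) : Prop :=
  L.coeff 0 = 1 ∧
    PowerSeries.X * PowerSeries.derivative ℚ (L : PowerSeries ℚ) =
      (L : PowerSeries ℚ) * traces p f h

/-- The pairs `(a, b)` of vectors `a ∈ {0, …, p - 1}^m`, `b ∈ {0, …, p - 1}^r` with `a ≠ 0`. -/
abbrev Index (p m r : ℕ) : Type :=
  {v : (Fin m → Fin p) × (Fin r → Fin p) // ∃ j, (v.1 j : ℕ) ≠ 0}

/-- `∑ a_j f_j(x, t) + x ∑ b_i h_i(t)`. -/
noncomputable def comb {k : Type} [Field k] {p m r : ℕ} (f : Fin m → k[X][X]) (h : Fin r → k[X])
    (v : Index p m r) : k[X][X] :=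
  ∑ j, ((v.1.1 j : ℕ) : k[X][X]) * f j + ∑ i, ((v.1.2 i : ℕ) : k[X][X]) * (C (h i) * X)

/-- For every combination `f_v = ∑ a_j f_j + x ∑ b_i h_i` with `a ≠ 0` let the exponents of `f_v`
lie in the triangle with the vertices `(0, 0)`, `(a_v, 0)`, `(0, b_v)`, with a nonzero coefficient at
`(a_v, 0)`, and let `f_v(0, t)` be a constant times the product of `e_v` different monic irreducible
polynomials of total degree `b_v`, as in `HasPole`. Write the `L`-function of the Jacobian of the
curve `y_j^p - y_j = f_j(x, t) / x` over the function field of `z_i^p - z_i = h_i(t)`, without the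
Euler factors at infinity, as `L = (1 - q T)^ρ M` with `M(1/q) ≠ 0`, and put `q = p^s`,
`R = ∑_v (e_v - 1)` and `N = s ∑_v hodge(a_v, b_v)`. Then `ρ ≤ R` and `v_p(M(1/q)) ≥ -N`, with
equality if and only if `ρ = R`. In particular, if all `e_v` are `1`, then `L(1/q) ≠ 0` and
`v_p(L(1/q)) = -N`. -/
theorem result (p : ℕ) (hp : p.Prime) (k : Type) [Field k] [Fintype k] [CharP k p] (s : ℕ)
    (hs : Fintype.card k = p ^ s) (m r : ℕ) (f : Fin m → k[X][X]) (h : Fin r → k[X])
    (a b e : Index p m r → ℕ) (u : Index p m r → k) (P : ∀ v, Fin (e v) → k[X])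
    (hf : ∀ v, HasPole p (a v) (b v) (e v) (u v) (P v) (comb f h v))
    (L : ℚ[X]) (hL : IsLFunction p f h L) :
    (∀ (ρ : ℕ) (M : ℚ[X]), L = (1 - C (Fintype.card k : ℚ) * X) ^ ρ * M →
      M.eval (1 / (Fintype.card k : ℚ)) ≠ 0 →
        ρ ≤ ∑ v, (e v - 1) ∧
        -((s : ℚ) * ∑ v, hodge (a v) (b v)) ≤
          (padicValRat p (M.eval (1 / (Fintype.card k : ℚ))) : ℚ) ∧
        ((padicValRat p (M.eval (1 / (Fintype.card k : ℚ))) : ℚ) =
          -((s : ℚ) * ∑ v, hodge (a v) (b v)) ↔ ρ = ∑ v, (e v - 1))) ∧
    ((∀ v : Index p m r, Irreducible ((comb f h v).coeff 0)) →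
      L.eval (1 / (Fintype.card k : ℚ)) ≠ 0 ∧
      (padicValRat p (L.eval (1 / (Fintype.card k : ℚ))) : ℚ) =
        -((s : ℚ) * ∑ v, hodge (a v) (b v))) := by
  have main : ∀ (ρ : ℕ) (M : ℚ[X]), L = (1 - C (Fintype.card k : ℚ) * X) ^ ρ * M →
      M.eval (1 / (Fintype.card k : ℚ)) ≠ 0 →
        ρ ≤ ∑ v, (e v - 1) ∧
        -((s : ℚ) * ∑ v, hodge (a v) (b v)) ≤
          (padicValRat p (M.eval (1 / (Fintype.card k : ℚ))) : ℚ) ∧
        ((padicValRat p (M.eval (1 / (Fintype.card k : ℚ))) : ℚ) =
          -((s : ℚ) * ∑ v, hodge (a v) (b v)) ↔ ρ = ∑ v, (e v - 1)) :=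
    fun ρ M hLM hM =>
      Pool.Agent.U407.SP.mainL p hp k s hs m r f h a b e (fun v => (hf v).degX)
        (fun v => (hf v).degT) (fun v => (hf v).coprime) (fun v => (hf v).size) u
        (fun v => (hf v).unit) P (fun v => (hf v).irreducible) (fun v => (hf v).monic)
        (fun v => (hf v).different) (fun v => (hf v).degree) (fun v => (hf v).triangle)
        (fun v => (hf v).corner) (fun v => (hf v).residue) L hL.1 hL.2 ρ M hLM hM
  refine ⟨main, fun hirr => ?_⟩
  have hq : (Fintype.card k : ℚ) ≠ 0 := by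
    have := Fintype.card_ne_zero (α := k)
    exact_mod_cast this
  have hL0 : L ≠ 0 := by
    intro h0
    have h1 := hL.1
    rw [h0, coeff_zero] at h1
    exact zero_ne_one h1
  obtain ⟨ρ, M, hLM, hM⟩ := Pool.Agent.U407.LF.exists_order hq hL0
  -- the number of the factors is one
  have he : ∀ v, e v ≤ 1 := by
    intro v
    by_contra hlt
    have hi := hirr v
    rw [(hf v).residue] at hi
    have h1 : IsUnit (C (u v) : k[X]) := isUnit_C.2 (isUnit_iff_ne_zero.2 (hf v).unit)
    have h2 : Irreducible (∏ i, P v i) := (irreducible_isUnit_mul h1).1 hi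
    obtain ⟨i₀⟩ : Nonempty (Fin (e v)) := ⟨⟨0, by omega⟩⟩
    rw [← Finset.mul_prod_erase Finset.univ (P v) (Finset.mem_univ i₀)] at h2
    rcases h2.isUnit_or_isUnit rfl with h4 | h4
    · exact ((hf v).irreducible i₀).not_isUnit h4
    · have h5 : (Finset.univ.erase i₀).Nonempty := by
        rw [← Finset.card_pos, Finset.card_erase_of_mem (Finset.mem_univ _), Finset.card_univ,
          Fintype.card_fin]
        omega
      obtain ⟨i₁, hi₁⟩ := h5
      rw [← Finset.mul_prod_erase _ (P v) hi₁] at h4
      exact ((hf v).irreducible i₁).not_isUnit (isUnit_of_mul_isUnit_left h4)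
  have hR : ∑ v, (e v - 1) = 0 := Finset.sum_eq_zero fun v _ => by
    have := he v
    omega
  obtain ⟨h1, -, h3⟩ := main ρ M hLM hM
  rw [hR] at h1 h3
  have hρ0 : ρ = 0 := Nat.le_zero.1 h1
  subst hρ0
  rw [pow_zero, one_mul] at hLM
  rw [hLM]
  exact ⟨hM, h3.2 rfl⟩

end Pool.Agent.Results.MP_1d384c_nt.SimplePole
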